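import Pool.Agent.R246.SK.Defs

/-!
Project SK (MP_3f9991_gt), piece SK-Q: the expansions of the two quadratic forms.
-/

open scoped ContDiff ComplexConjugate
open Filter MeasureTheory

namespace Pool.Agent.R569.SKQ
open Pool.Agent.R246.SK

theorem sp_mul {a : ℝ → ℝ} {f : ℝ → ℂ} (ha : PP a) (hf : SP f) :
    SP (fun t => (a t : ℂ) * f t) := by
  refine ⟨(Complex.ofRealCLM.contDiff.comp ha.1).mul hf.1, fun t => ?_⟩
  simp only [ha.2.1 t, hf.2 t]

theorem ip_self {a : ℝ → ℝ} (f : ℝ → ℂ) (ha : PP a) :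
    (ip a (fun t => (a t : ℂ) * f t) (fun t => (a t : ℂ) * f t)).re =
      ∫ t in (0 : ℝ)..(2 * Real.pi), a t * ‖f t‖ ^ 2 := by
  have h1 : ip a (fun t => (a t : ℂ) * f t) (fun t => (a t : ℂ) * f t) =
      ((∫ t in (0 : ℝ)..(2 * Real.pi), a t * ‖f t‖ ^ 2 : ℝ) : ℂ) := by
    rw [ip, ← intervalIntegral.integral_ofReal]
    apply intervalIntegral.integral_congr
    intro t _
    have h0 : (a t : ℂ) ≠ 0 := by exact_mod_cast (ha.2.2 t).ne'
    have h2 : f t * conj (f t) = ((‖f t‖ ^ 2 : ℝ) : ℂ) := by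
      rw [Complex.mul_conj, Complex.normSq_eq_norm_sq]
    simp only [map_mul, Complex.conj_ofReal]
    rw [Complex.ofReal_mul, ← h2]
    field_simp
  rw [h1, Complex.ofReal_re]

theorem ip_mul {a : ℝ → ℝ} (f g : ℝ → ℂ) (ha : PP a) :
    ip a (fun t => (a t : ℂ) * f t) g = ∫ t in (0 : ℝ)..(2 * Real.pi), f t * conj (g t) := by
  rw [ip]
  apply intervalIntegral.integral_congr
  intro t _
  have h0 : (a t : ℂ) ≠ 0 := by exact_mod_cast (ha.2.2 t).ne'
  field_simp

/-- SK-QA -/
theorem s_qa (hL : S_LAM) : S_QA := by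
  intro a u lam ha hu he hcp f hf
  have h1 := hcp _ (sp_mul ha (hL f hf).1)
  rw [ip_self _ ha] at h1
  have h2 : (fun j => ‖ip a (fun t => (a t : ℂ) * Lam f t) (u j)‖ ^ 2) =
      fun j => lam j ^ 2 * ‖ip a f (u j)‖ ^ 2 := by
    funext j
    have h3 : ip a (fun t => (a t : ℂ) * Lam f t) (u j) = (lam j : ℂ) * ip a f (u j) := by
      rw [ip_mul _ _ ha, (hL f hf).2.2 (u j) (hu j), ip, ← intervalIntegral.integral_const_mul]
      apply intervalIntegral.integral_congr
      intro t _
      have h0 : (a t : ℂ) ≠ 0 := by exact_mod_cast (ha.2.2 t).ne'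
      have h4 : Lam (u j) t = (lam j : ℂ) * u j t / (a t : ℂ) := by
        rw [← he j t]
        field_simp
      show f t * conj (Lam (u j) t) = (lam j : ℂ) * (f t * conj (u j t) / (a t : ℂ))
      rw [h4, map_div₀, map_mul, Complex.conj_ofReal, Complex.conj_ofReal]
      ring
    rw [h3, norm_mul, mul_pow, Complex.norm_real, Real.norm_eq_abs, sq_abs]
  rwa [h2] at h1

theorem parts {f g : ℝ → ℂ} (hf : SP f) (hg : SP g) :
    ∫ t in (0 : ℝ)..(2 * Real.pi), deriv f t * conj (g t) =
      - ∫ t in (0 : ℝ)..(2 * Real.pi), f t * conj (deriv g t) := by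
  have hdf : ∀ t, HasDerivAt f (deriv f t) t := fun t =>
    ((hf.1.differentiable (by simp)) t).hasDerivAt
  have hdg : ∀ t, HasDerivAt g (deriv g t) t := fun t =>
    ((hg.1.differentiable (by simp)) t).hasDerivAt
  have hcg : ∀ t, HasDerivAt (fun t => conj (g t)) (conj (deriv g t)) t := fun t => by
    have := (hdg t).star
    simpa using this
  have hcf' : Continuous (deriv f) := hf.1.continuous_deriv (by simp)
  have hcg' : Continuous (deriv g) := hg.1.continuous_deriv (by simp)
  have h := intervalIntegral.integral_deriv_mul_eq_sub (a := (0 : ℝ)) (b := 2 * Real.pi)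
    (u := f) (v := fun t => conj (g t)) (u' := deriv f) (v' := fun t => conj (deriv g t))
    (fun t _ => hdf t) (fun t _ => hcg t) (hcf'.intervalIntegrable _ _)
    ((Complex.continuous_conj.comp hcg').intervalIntegrable _ _)
  have hp : f (2 * Real.pi) * conj (g (2 * Real.pi)) - f 0 * conj (g 0) = 0 := by
    have e1 := hf.2 0
    have e2 := hg.2 0
    rw [zero_add] at e1 e2
    rw [e1, e2, sub_self]
  rw [hp, intervalIntegral.integral_add] at h
  · rw [eq_neg_iff_add_eq_zero]
    exact h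
  · exact (hcf'.mul (Complex.continuous_conj.comp hg.1.continuous)).intervalIntegrable _ _
  · exact (hf.1.continuous.mul (Complex.continuous_conj.comp hcg')).intervalIntegrable _ _

/-- SK-QB -/
theorem s_qb (h1 : S_FT1) (h2 : S_PSI1) (h3 : S_PSI2) : S_QB := by
  intro a ha f hf
  have hcp := (h3 a ha).2
  have h4 := hcp _ (sp_mul ha (h1 f hf).2.2.1)
  rw [ip_self _ ha] at h4
  have h5 : (fun n : ℤ => ‖ip a (fun t => (a t : ℂ) * deriv f t) (psi a n)‖ ^ 2) =
      fun n : ℤ => mu a n ^ 2 * ‖ip a f (psi a n)‖ ^ 2 := by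
    funext n
    have hpsi := (h2 a ha).2.1 n
    have h6 : ip a (fun t => (a t : ℂ) * deriv f t) (psi a n) =
        (Complex.I * (mu a n : ℂ)) * ip a f (psi a n) := by
      rw [ip_mul _ _ ha, parts hf hpsi.1, ip, ← intervalIntegral.integral_const_mul,
        ← intervalIntegral.integral_neg]
      apply intervalIntegral.integral_congr
      intro t _
      have h0 : (a t : ℂ) ≠ 0 := by exact_mod_cast (ha.2.2 t).ne'
      have h7 : deriv (psi a n) t = Complex.I * (mu a n : ℂ) * psi a n t / (a t : ℂ) := by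
        rw [← hpsi.2 t]
        field_simp
      show -(f t * conj (deriv (psi a n) t)) =
        Complex.I * (mu a n : ℂ) * (f t * conj (psi a n t) / (a t : ℂ))
      rw [h7, map_div₀, map_mul, map_mul, Complex.conj_ofReal, Complex.conj_ofReal,
        Complex.conj_I]
      ring
    rw [h6, norm_mul, norm_mul, Complex.norm_I, one_mul, mul_pow, Complex.norm_real,
      Real.norm_eq_abs, sq_abs]
  rwa [h5] at h4

/-- SK-Q -/
theorem s_q (hL : S_LAM) (h1 : S_FT1) (h2 : S_PSI1) (h3 : S_PSI2) : S_QA ∧ S_QB :=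
  ⟨s_qa hL, s_qb h1 h2 h3⟩

end Pool.Agent.R569.SKQ
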